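import Pool.Agent.Lib.MP_68391b_lc.Jk.JFinal

/-!
Polynomial threshold functions of degree `d` are fooled by `k`-wise independent Gaussians
with `k ≤ C d² log²(2d) / ε²`.
-/

namespace Pool.Agent.Results.MP_68391b_lc.LogSquare

open MeasureTheory ProbabilityTheory

theorem result :
    ∃ C : ℝ, 0 < C ∧ ∀ d : ℕ, 1 ≤ d → ∀ ε : ℝ, 0 < ε → ε < 1 → ∀ k : ℕ,
      C * (d : ℝ) ^ 2 * Real.log (2 * d) ^ 2 / ε ^ 2 ≤ (k : ℝ) →
      ∀ (n : ℕ) (p : MvPolynomial (Fin n) ℝ), p.totalDegree ≤ d →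
      ∀ (Ω : Type) (_ : MeasurableSpace Ω) (P : Measure Ω) (_ : IsProbabilityMeasure P)
        (X : Fin n → Ω → ℝ),
        (∀ i, HasLaw (X i) (gaussianReal 0 1) P) →
        (∀ s : Finset (Fin n), s.card ≤ k → iIndepFun (fun i : s => X i) P) →
        |P.real {ω | 0 ≤ MvPolynomial.eval (fun i => X i ω) p} -
          (Measure.pi (fun _ : Fin n => gaussianReal 0 1)).real
            {z | 0 ≤ MvPolynomial.eval z p}| ≤ ε := by
  refine ⟨2 ^ 82 * 36, by norm_num, ?_⟩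
  intro d hd ε hε hε1 k hk n p hp Ω mΩ P hP X hlaw hind
  exact Pool.Agent.KWG.gen_eps3 d hd ε hε hε1 k hk n p hp Ω mΩ P hP X ⟨hlaw, hind⟩

end Pool.Agent.Results.MP_68391b_lc.LogSquare
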